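import Pool.Agent.X115.HS.Stm

set_option autoImplicit false

namespace Pool.Agent.X268.HSP

open MeasureTheory Set Filter Topology Real Pool.Agent.X115.HS

theorem hk_real {n : ℕ} {s : ℝ} (hs : 0 < s) (x : X n) : hk (s : ℂ) x = (gk s x : ℂ) := by
  unfold hk gk
  have h1 : (0 : ℝ) ≤ 4 * π * s := by positivity
  rw [Complex.ofReal_mul, Complex.ofReal_cpow h1, Complex.ofReal_exp]
  push_cast
  rfl

theorem gk_pos {n : ℕ} {s : ℝ} (hs : 0 < s) (x : X n) : 0 < gk s x := by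
  unfold gk
  have h1 : (0 : ℝ) < 4 * π * s := by positivity
  exact mul_pos (Real.rpow_pos_of_pos h1 _) (Real.exp_pos _)

theorem gk_eq {n : ℕ} (s : ℝ) (x : X n) : gk s x =
    (4 * π * s) ^ (-((n : ℝ) / 2)) * Real.exp (-(1 / (4 * s)) * ‖x‖ ^ 2) := by
  unfold gk
  congr 2
  ring

theorem integral_exp {n : ℕ} {s : ℝ} (hs : 0 < s) :
    ∫ x : X n, Real.exp (-(1 / (4 * s)) * ‖x‖ ^ 2) = (4 * π * s) ^ ((n : ℝ) / 2) := by
  have hb : 0 < 1 / (4 * s) := by positivity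
  rw [GaussianFourier.integral_rexp_neg_mul_sq_norm hb]
  rw [finrank_euclideanSpace, Fintype.card_fin]
  congr 1
  field_simp

theorem integrable_exp {n : ℕ} {s : ℝ} (hs : 0 < s) :
    Integrable (fun x : X n => Real.exp (-(1 / (4 * s)) * ‖x‖ ^ 2)) := by
  by_contra h
  have h1 := integral_exp (n := n) hs
  rw [integral_undef h] at h1
  have h2 : (0 : ℝ) < (4 * π * s) ^ ((n : ℝ) / 2) := Real.rpow_pos_of_pos (by positivity) _
  rw [← h1] at h2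
  exact lt_irrefl _ h2

theorem gk_int {n : ℕ} {s : ℝ} (hs : 0 < s) :
    Integrable (fun x : X n => gk s x) ∧ ∫ x : X n, gk s x = 1 := by
  simp only [gk_eq]
  refine ⟨(integrable_exp hs).const_mul _, ?_⟩
  rw [integral_const_mul, integral_exp hs, ← Real.rpow_add (by positivity)]
  simp

theorem hk_bound {n : ℕ} {s : ℝ} (hs : 0 < s) (z : ℂ) (hz : ‖z - s‖ ≤ s / 2) :
    0 < z.re ∧ ∀ x : X n, ‖hk z x‖ ≤ 3 ^ n * gk (9 / 2 * s) x := by
  have h1 : |(z - s).re| ≤ s / 2 := (Complex.abs_re_le_norm _).trans hz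
  rw [Complex.sub_re, Complex.ofReal_re, abs_le] at h1
  have hre : s / 2 ≤ z.re := by linarith [h1.1]
  have hpos : 0 < z.re := by linarith
  have hzn : s / 2 ≤ ‖z‖ := hre.trans (Complex.re_le_norm z)
  have hzu : ‖z‖ ≤ 3 / 2 * s := by
    have h2 : ‖z‖ ≤ ‖z - s‖ + ‖(s : ℂ)‖ := by
      have := norm_add_le (z - s) (s : ℂ)
      simpa using this
    have h3 : ‖(s : ℂ)‖ = s := by
      rw [Complex.norm_real, Real.norm_eq_abs, abs_of_pos hs]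
    linarith
  have hz0 : z ≠ 0 := by
    intro h
    rw [h] at hpos
    simp at hpos
  have hn0 : 0 < ‖z‖ := norm_pos_iff.mpr hz0
  refine ⟨hpos, fun x => ?_⟩
  unfold hk
  rw [norm_mul, Complex.norm_exp]
  -- the power
  have e1 : ‖(4 * π * z : ℂ) ^ (-((n : ℂ) / 2))‖ = (4 * π * ‖z‖) ^ (-((n : ℝ) / 2)) := by
    have e : (-((n : ℂ) / 2)) = ((-((n : ℝ) / 2) : ℝ) : ℂ) := by push_cast; ring
    rw [e, Complex.norm_cpow_real]
    congr 1
    rw [norm_mul, norm_mul, Complex.norm_real, Real.norm_eq_abs, abs_of_pos Real.pi_pos]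
    norm_num
  have e2 : (-((‖x‖ ^ 2 : ℝ) : ℂ) / (4 * z)).re = -‖x‖ ^ 2 * (z.re / (4 * ‖z‖ ^ 2)) := by
    have e : (-((‖x‖ ^ 2 : ℝ) : ℂ) / (4 * z)) = ((-‖x‖ ^ 2 / 4 : ℝ) : ℂ) * z⁻¹ := by
      push_cast
      field_simp
    rw [e, Complex.re_ofReal_mul, Complex.inv_re, Complex.normSq_eq_norm_sq]
    field_simp
  rw [e1, e2]
  unfold gk
  -- compare
  have h4 : (4 * π * ‖z‖) ^ (-((n : ℝ) / 2)) ≤ 3 ^ n * (4 * π * (9 / 2 * s)) ^ (-((n : ℝ) / 2)) := by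
    have h5 : (4 * π * ‖z‖) ^ (-((n : ℝ) / 2)) ≤ (4 * π * (s / 2)) ^ (-((n : ℝ) / 2)) := by
      refine Real.rpow_le_rpow_of_nonpos (by positivity) ?_ (by
        have : (0 : ℝ) ≤ n := Nat.cast_nonneg n
        linarith)
      gcongr
    refine h5.trans (le_of_eq ?_)
    have h6 : 4 * π * (9 / 2 * s) = 9 * (4 * π * (s / 2)) := by ring
    have h9 : (9 * (4 * π * (s / 2))) ^ (-((n : ℝ) / 2)) =
        9 ^ (-((n : ℝ) / 2)) * (4 * π * (s / 2)) ^ (-((n : ℝ) / 2)) :=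
      Real.mul_rpow (by norm_num) (by positivity)
    rw [h6, h9, ← mul_assoc]
    have h7 : (3 : ℝ) ^ n * 9 ^ (-((n : ℝ) / 2)) = 1 := by
      have h8 : (9 : ℝ) = 3 ^ (2 : ℝ) := by norm_num
      rw [h8, ← Real.rpow_mul (by norm_num), ← Real.rpow_natCast, ← Real.rpow_add (by norm_num)]
      have : (n : ℝ) + 2 * -((n : ℝ) / 2) = 0 := by ring
      rw [this, Real.rpow_zero]
    rw [h7, one_mul]
  have h5 : Real.exp (-‖x‖ ^ 2 * (z.re / (4 * ‖z‖ ^ 2))) ≤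
      Real.exp (-‖x‖ ^ 2 / (4 * (9 / 2 * s))) := by
    apply Real.exp_le_exp.mpr
    have h6 : 1 / (4 * (9 / 2 * s)) ≤ z.re / (4 * ‖z‖ ^ 2) := by
      rw [div_le_div_iff₀ (by positivity) (by positivity)]
      have h7 : ‖z‖ ^ 2 ≤ (3 / 2 * s) ^ 2 := by gcongr
      nlinarith
    have h7 : -‖x‖ ^ 2 / (4 * (9 / 2 * s)) = -‖x‖ ^ 2 * (1 / (4 * (9 / 2 * s))) := by ring
    rw [h7]
    have h8 : 0 ≤ ‖x‖ ^ 2 := by positivity
    nlinarith
  calc (4 * π * ‖z‖) ^ (-((n : ℝ) / 2)) * Real.exp (-‖x‖ ^ 2 * (z.re / (4 * ‖z‖ ^ 2)))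
      ≤ (3 ^ n * (4 * π * (9 / 2 * s)) ^ (-((n : ℝ) / 2))) *
          Real.exp (-‖x‖ ^ 2 / (4 * (9 / 2 * s))) :=
        mul_le_mul h4 h5 (Real.exp_pos _).le (by positivity)
    _ = _ := by ring

theorem t_BD : S_BD := fun _ _ hs =>
  ⟨fun x => hk_real hs x, fun x => gk_pos hs x, (gk_int hs).1, (gk_int hs).2,
    fun z hz => hk_bound hs z hz⟩

end Pool.Agent.X268.HSP
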